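import Pool.Agent.helper28.SN.SpecC
import Pool.Agent.helper83.SC.Stmt

set_option autoImplicit false

open scoped Pointwise ContDiff
open MeasureTheory Set Filter Topology Pool.Agent.helper83.SC Pool.Agent.helper69.SN

namespace Pool.Agent.helper28.SN

theorem cVB (hPRJ : cPRJ_stmt) (hRNK : aRNK_stmt) (hES : exists_smooth_stmt)
    (hHP : hess_psd_stmt) (hBS : B_smooth_stmt) (hTB : tendsto_B_stmt) : cVB_stmt := by
  intro m D F T φ hφ hF hD hT
  classical
  have hex : ∀ j : Fin m, ∃ g : ℕ → E m → ℝ, (∀ k, SmC (g k)) ∧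
      (∀ x, Tendsto (fun k => g k x) atTop (𝓝 (F j x))) ∧
      (j ∈ T → ∀ k x, ∀ v ∈ Dᗮ, (hess (g k) x).mulVec (fun i => v i) = 0) := by
    intro j
    by_cases hj : j ∈ T
    · obtain ⟨g, h1, h2, h3⟩ := hPRJ D (F j) (hF j) (hT j hj)
      exact ⟨g, h1, h2, fun _ => h3⟩
    · obtain ⟨g, h1, h2⟩ := hES (hF j)
      exact ⟨g, fun k => ⟨(h1 k).1, (h1 k).2⟩, h2, fun h => absurd h hj⟩
  choose g h1 h2 h3 using hex
  have hlim : Tendsto (fun k => B φ (fun j => g j k)) atTop (𝓝 (B φ F)) :=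
    hTB hφ hF (fun k j => (h1 j k).2) (fun j x => h2 j x)
  have hzero : ∀ k, B φ (fun j => g j k) = 0 := by
    intro k
    rw [hBS hφ (fun j => (h1 j k).1) (fun j => (h1 j k).2)]
    have : ∀ x, φ x * mD (fun j => hess (g j k) x) = 0 := by
      intro x
      rw [hRNK (fun j => hess (g j k) x) (fun j => hHP (h1 j k).1 (h1 j k).2 x) D T hD
        (fun j hj v hv => h3 j hj k x v hv), mul_zero]
    simp [this]
  have : Tendsto (fun k => B φ (fun j => g j k)) atTop (𝓝 0) := by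
    simp [hzero]
  exact tendsto_nhds_unique hlim this

end Pool.Agent.helper28.SN
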