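import Pool.Agent.helper40.SN.SpecD

set_option autoImplicit false

open scoped Pointwise ContDiff
open MeasureTheory Set Filter Topology Pool.Agent.helper83.SC Pool.Agent.helper69.SN

namespace Pool.Agent.helper40.SN

theorem dCOR_hs {m n : ℕ} (a : Fin n → E m → ℝ) (x : E m) :
    hs a (wt Finset.univ 1 ∅ 0) x = fun i => hess (a i) x := by
  funext i
  simp [hs, wt]

theorem dCOR_const {m : ℕ} (k : ℝ) (x : E m) : hess (fun _ : E m => k) x = 0 := by
  ext i j
  have h1 : pd j (fun _ : E m => k) = fun _ => 0 := by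
    funext y
    simp [pd]
  simp [hess, h1]
  simp [pd]

theorem dCOR_key (hCMP : Pool.Agent.helper28.SN.cCMP_stmt) (hDER : aDER_stmt)
    (hCNT : Pool.Agent.helper28.SN.cCNT_stmt) (hCLO : aCLO_stmt) (hPSD : aPSD_stmt)
    (hALL : aALL_stmt) (hBS : B_smooth_stmt) (hNN : mD_nonneg_stmt) (hHA : hess_add_stmt)
    (hHN : hess_normSq_stmt) (hHP : hess_psd_stmt)
    {m : ℕ} (a : Fin m → E m → ℝ) (ha : ∀ i, SmC (a i)) (ψ : E m → ℝ)
    (hψ : ContDiff ℝ ∞ ψ) (hG : ∀ x, hess ψ x ∈ GG (hs a (wt Finset.univ 1 ∅ 0) x))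
    (r δ : ℝ) (hr : 0 < r) (hδ : 0 < δ) (h1 : ∀ x : E m, r ≤ ‖x‖ → ψ x ≤ 0)
    (h2 : ∀ x : E m, ‖x‖ ≤ δ → δ ≤ ψ x)
    (φ : E m → ℝ) (hφ : Test φ) (hφ1 : ∀ x : E m, ‖x‖ < 3 / 2 * r → φ x = 1) :
    (2 * (δ / (8 * r ^ 2))) ^ m * volume.real (Metric.ball (0 : E m) (min δ r))
      ≤ m.factorial * B φ a := by
  classical
  obtain ⟨γ, hγdef⟩ : ∃ γ : ℝ, γ = δ / (8 * r ^ 2) := ⟨_, rfl⟩
  rw [← hγdef]
  have hγ : 0 < γ := by rw [hγdef]; positivity
  have hγ4 : 4 * γ * r ^ 2 = δ / 2 := by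
    rw [hγdef]; field_simp; norm_num
  obtain ⟨u, hu⟩ : ∃ u : E m → ℝ, u = fun y => ψ y + (2 * γ) * ‖y‖ ^ 2 / 2 := ⟨_, rfl⟩
  have hnsq : ContDiff ℝ ∞ (fun y : E m => (2 * γ) * ‖y‖ ^ 2 / 2) :=
    ((contDiff_const.mul (contDiff_norm_sq ℝ)).div_const _)
  have hus : ContDiff ℝ ∞ u := by rw [hu]; exact hψ.add hnsq
  have huh : ∀ x, hess u x = hess ψ x + (2 * γ) • (1 : Mat m) := by
    intro x
    rw [hu, hHA hψ hnsq x, hHN]
  have hpsdB : ∀ x, Psd (hs a (wt Finset.univ 1 ∅ 0) x) := by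
    intro x i
    rw [dCOR_hs]
    exact hHP (ha i).1 (ha i).2 x
  have hone : ((2 * γ) • (1 : Mat m)).PosSemidef :=
    Matrix.PosSemidef.one.smul (by positivity)
  have huG : ∀ x, hess u x ∈ GG (hs a (wt Finset.univ 1 ∅ 0) x) := by
    intro x
    rw [huh]
    exact (hCLO _ (hpsdB x)).2.1 _ _ (hG x) hone
  have huP : ∀ x, (2 * γ) ^ m ≤ Ph (hs a (wt Finset.univ 1 ∅ 0) x) (hess u x) := by
    intro x
    rw [huh]
    exact (hG x).2 (2 * γ) (by positivity)
  have hub : ∀ x : E m, r ≤ ‖x‖ → ‖x‖ < 2 * r → u x < δ / 2 := by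
    intro x hx hx2
    have := h1 x hx
    have h3 : ‖x‖ ^ 2 < (2 * r) ^ 2 := by
      have := norm_nonneg x
      nlinarith
    rw [hu]
    simp only
    nlinarith
  have hui : ∀ x : E m, ‖x‖ < min δ r → δ / 2 < u x := by
    intro x hx
    have h3 := h2 x ((hx.trans_le (min_le_left _ _)).le)
    rw [hu]
    simp only
    have : 0 ≤ (2 * γ) * ‖x‖ ^ 2 / 2 := by positivity
    linarith
  have hset : {x : E m | x ∈ Metric.ball (0 : E m) (2 * r) ∧ δ / 2 ≤ u x}
      = Metric.closedBall (0 : E m) r ∩ {x | δ / 2 ≤ u x} := by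
    ext x
    simp only [Set.mem_setOf_eq, Metric.mem_ball, dist_zero_right, Set.mem_inter_iff,
      Metric.mem_closedBall]
    constructor
    · rintro ⟨h3, h4⟩
      refine ⟨?_, h4⟩
      by_contra h5
      push Not at h5
      exact absurd (hub x h5.le h3) (not_lt.mpr h4)
    · rintro ⟨h3, h4⟩
      exact ⟨by linarith, h4⟩
  have hcpt : IsCompact {x : E m | x ∈ Metric.ball (0 : E m) (2 * r) ∧ δ / 2 ≤ u x} := by
    rw [hset]
    exact (isCompact_closedBall _ _).inter_right (isClosed_le continuous_const hus.continuous)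
  have hb : SmC (fun _ : E m => (0 : ℝ)) := ⟨contDiff_const, convexOn_const _ convex_univ⟩
  have hzG : ∀ x, hess (fun _ : E m => δ / 2) x ∈ GG (hs a (wt Finset.univ 1 ∅ 0) x) := by
    intro x
    rw [dCOR_const]
    exact hPSD _ (hpsdB x) _ Matrix.PosSemidef.zero
  have hcmp := hCMP a (wt Finset.univ 1 ∅ 0) (fun _ => (0 : ℝ)) u (fun _ => δ / 2) 0
    (Metric.ball (0 : E m) (2 * r)) ha (fun i => by simp [wt]) hb hus contDiff_const
    Metric.isOpen_ball hcpt (fun x _ => ⟨huG x, hzG x⟩)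
  have hf : Continuous fun x => dPh (hs a (wt Finset.univ 1 ∅ 0) x) 0
      (hess (fun _ : E m => (0 : ℝ)) x) (hess u x) :=
    hCNT a _ _ u 0 (fun i => (ha i).1) contDiff_const hus
  have hg : Continuous fun x => dPh (hs a (wt Finset.univ 1 ∅ 0) x) 0
      (hess (fun _ : E m => (0 : ℝ)) x) (hess (fun _ : E m => δ / 2) x) :=
    hCNT a _ _ _ 0 (fun i => (ha i).1) contDiff_const contDiff_const
  have hf0 : ∀ x, (2 * γ) ^ m ≤ dPh (hs a (wt Finset.univ 1 ∅ 0) x) 0
      (hess (fun _ : E m => (0 : ℝ)) x) (hess u x) := by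
    intro x
    rw [(hDER _ _ _ 0 0).2]
    exact huP x
  have hγm : (0 : ℝ) ≤ (2 * γ) ^ m := by positivity
  -- the left side
  have hleft : (2 * γ) ^ m * volume.real (Metric.ball (0 : E m) (min δ r)) ≤
      ∫ x in {x | x ∈ Metric.ball (0 : E m) (2 * r) ∧ δ / 2 < u x},
        dPh (hs a (wt Finset.univ 1 ∅ 0) x) 0 (hess (fun _ : E m => (0 : ℝ)) x) (hess u x) := by
    have hint : IntegrableOn (fun x => dPh (hs a (wt Finset.univ 1 ∅ 0) x) 0
        (hess (fun _ : E m => (0 : ℝ)) x) (hess u x))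
        {x | x ∈ Metric.ball (0 : E m) (2 * r) ∧ δ / 2 < u x} := by
      refine (hf.continuousOn.integrableOn_compact (isCompact_closedBall (0 : E m) (2 * r))).mono_set ?_
      intro x hx
      exact Metric.ball_subset_closedBall hx.1
    have hsub : Metric.ball (0 : E m) (min δ r) ⊆
        {x | x ∈ Metric.ball (0 : E m) (2 * r) ∧ δ / 2 < u x} := by
      intro x hx
      rw [Metric.mem_ball, dist_zero_right] at hx
      refine ⟨?_, hui x hx⟩
      rw [Metric.mem_ball, dist_zero_right]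
      have := hx.trans_le (min_le_right _ _)
      linarith
    calc (2 * γ) ^ m * volume.real (Metric.ball (0 : E m) (min δ r))
        = ∫ x in Metric.ball (0 : E m) (min δ r), (2 * γ) ^ m := by
          rw [setIntegral_const, smul_eq_mul, mul_comm]
      _ ≤ ∫ x in Metric.ball (0 : E m) (min δ r), dPh (hs a (wt Finset.univ 1 ∅ 0) x) 0
          (hess (fun _ : E m => (0 : ℝ)) x) (hess u x) := by
          refine setIntegral_mono_on ?_ (hint.mono_set hsub) measurableSet_ball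
            (fun x _ => hf0 x)
          exact integrableOn_const (by exact measure_ball_lt_top.ne)
      _ ≤ _ := by
          refine setIntegral_mono_set hint ?_ (Eventually.of_forall hsub)
          exact Eventually.of_forall fun x => hγm.trans (hf0 x)
  -- the right side
  have hg0 : ∀ x, dPh (hs a (wt Finset.univ 1 ∅ 0) x) 0
      (hess (fun _ : E m => (0 : ℝ)) x) (hess (fun _ : E m => δ / 2) x)
      = (m.factorial : ℝ) * mD (fun j => hess (a j) x) := by
    intro x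
    rw [(hDER _ _ _ 0 0).2, dCOR_const, hALL, dCOR_hs]
  have hmD : ∀ x, 0 ≤ mD (fun j => hess (a j) x) :=
    fun x => hNN fun j => hHP (ha j).1 (ha j).2 x
  have hright : ∫ x in {x | x ∈ Metric.ball (0 : E m) (2 * r) ∧ δ / 2 ≤ u x},
      dPh (hs a (wt Finset.univ 1 ∅ 0) x) 0
      (hess (fun _ : E m => (0 : ℝ)) x) (hess (fun _ : E m => δ / 2) x)
      ≤ m.factorial * B φ a := by
    rw [hBS hφ (fun j => (ha j).1) (fun j => (ha j).2), ← integral_const_mul]
    have he : ∀ x, (m.factorial : ℝ) * (φ x * mD (fun j => hess (a j) x))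
        = φ x * dPh (hs a (wt Finset.univ 1 ∅ 0) x) 0
      (hess (fun _ : E m => (0 : ℝ)) x) (hess (fun _ : E m => δ / 2) x) := by
      intro x
      rw [hg0]; ring
    simp only [he]
    have hgi : Integrable (fun x => φ x * dPh (hs a (wt Finset.univ 1 ∅ 0) x) 0
      (hess (fun _ : E m => (0 : ℝ)) x) (hess (fun _ : E m => δ / 2) x)) :=
      (hφ.1.continuous.mul hg).integrable_of_hasCompactSupport hφ.2.1.mul_right
    have hgn : ∀ x, 0 ≤ φ x * dPh (hs a (wt Finset.univ 1 ∅ 0) x) 0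
      (hess (fun _ : E m => (0 : ℝ)) x) (hess (fun _ : E m => δ / 2) x) := by
      intro x
      rw [hg0]
      have := hmD x
      have := hφ.2.2 x
      positivity
    calc ∫ x in {x | x ∈ Metric.ball (0 : E m) (2 * r) ∧ δ / 2 ≤ u x},
        dPh (hs a (wt Finset.univ 1 ∅ 0) x) 0
          (hess (fun _ : E m => (0 : ℝ)) x) (hess (fun _ : E m => δ / 2) x)
        = ∫ x in {x | x ∈ Metric.ball (0 : E m) (2 * r) ∧ δ / 2 ≤ u x},
          φ x * dPh (hs a (wt Finset.univ 1 ∅ 0) x) 0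
          (hess (fun _ : E m => (0 : ℝ)) x) (hess (fun _ : E m => δ / 2) x) := by
          refine setIntegral_congr_fun hcpt.measurableSet ?_
          intro x hx
          have hx2 : x ∈ Metric.closedBall (0 : E m) r ∩ {x | δ / 2 ≤ u x} := by
            rw [← hset]; exact hx
          have hx3 : ‖x‖ ≤ r := by
            have := hx2.1
            rwa [Metric.mem_closedBall, dist_zero_right] at this
          simp only
          rw [hφ1 x (by linarith), one_mul]
      _ ≤ _ := setIntegral_le_integral hgi (Eventually.of_forall hgn)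
  exact hleft.trans (hcmp.trans hright)

theorem dCOR (hIND : dIND_stmt) (hNCV : dNCV_stmt) (hCMP : Pool.Agent.helper28.SN.cCMP_stmt)
    (hDER : aDER_stmt) (hCNT : Pool.Agent.helper28.SN.cCNT_stmt) (hCLO : aCLO_stmt)
    (hPSD : aPSD_stmt) (hALL : aALL_stmt) (hBS : B_smooth_stmt) (hNN : mD_nonneg_stmt)
    (hHA : hess_add_stmt) (hHN : hess_normSq_stmt) (hHP : hess_psd_stmt)
    (hES : exists_smooth_stmt) (hTB : tendsto_B_stmt) (hET : exists_test_stmt) :
    dCOR_stmt := by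
  intro m F hm hF r₀ hr₀ hB
  classical
  by_contra hcon
  push Not at hcon
  have hHall : Hall (Finset.univ : Finset (Fin m)) (⊤ : Submodule ℝ (E m)) F := by
    intro I _ W _ hW
    have := hcon I W hW
    rw [Finset.card_univ, Fintype.card_fin]
    omega
  have hpj : ∀ x : E m, pj (⊤ : Submodule ℝ (E m)) x = x := by
    intro x
    exact Submodule.starProjection_eq_self_iff.mpr Submodule.mem_top
  have hr : 0 < r₀ / 2 := by positivity
  obtain ⟨δ, η, R, hδ, hη, hpot⟩ := hIND m m m Finset.univ ⊤ F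
    (by rw [finrank_top, finrank_euclideanSpace_fin]) hF (fun i x => by rw [hpj]) hHall
    (r₀ / 2) hr
  have hex : ∀ j : Fin m, ∃ g : ℕ → E m → ℝ, (∀ k, ContDiff ℝ ∞ (g k) ∧ CV (g k)) ∧
      (∀ x, Tendsto (fun k => g k x) atTop (𝓝 (F j x))) := fun j => hES (hF j)
  choose g hg1 hg2 using hex
  obtain ⟨φ, hφ, -, hφ1, hφs⟩ := hET (m := m) (r₁ := 3 / 2 * (r₀ / 2)) (r₂ := r₀)
    (by positivity) (by linarith)
  have hnear := hNCV F (fun k j => g j k) (fun k i => ⟨(hg1 i k).1, (hg1 i k).2⟩)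
    (fun i x => hg2 i x) η R hη
  have hlim : Tendsto (fun k => B φ (fun j => g j k)) atTop (𝓝 (B φ F)) :=
    hTB hφ hF (fun k j => (hg1 j k).2) (fun j x => hg2 j x)
  rw [hB φ hφ hφs] at hlim
  have hev : ∀ᶠ k in atTop, (2 * (δ / (8 * (r₀ / 2) ^ 2))) ^ m *
      volume.real (Metric.ball (0 : E m) (min δ (r₀ / 2)))
      ≤ m.factorial * B φ (fun j => g j k) := by
    filter_upwards [hnear] with k hk
    obtain ⟨ψ, hψ, hψG, hψ1, hψ2⟩ := hpot (fun j => g j k) hk
    refine dCOR_key hCMP hDER hCNT hCLO hPSD hALL hBS hNN hHA hHN hHP (fun j => g j k)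
      (fun i => ⟨(hg1 i k).1, (hg1 i k).2⟩) ψ hψ hψG (r₀ / 2) δ hr hδ ?_ hψ2 φ hφ hφ1
    intro x hx
    have h3 : x ∉ Tube (⊤ : Submodule ℝ (E m)) (r₀ / 2) := by
      intro h4
      have h5 := h4.1
      rw [hpj] at h5
      linarith
    have h6 := hψ1 x h3
    have h7 : Qf (⊤ : Submodule ℝ (E m)) x = 0 := by
      simp [Qf, hpj]
    rwa [h7] at h6
  have hl2 : Tendsto (fun k => (m.factorial : ℝ) * B φ (fun j => g j k)) atTop (𝓝 0) := by
    simpa using hlim.const_mul (m.factorial : ℝ)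
  have h8 := ge_of_tendsto hl2 hev
  have h9 : 0 < volume.real (Metric.ball (0 : E m) (min δ (r₀ / 2))) := by
    rw [measureReal_def]
    refine ENNReal.toReal_pos ?_ measure_ball_lt_top.ne
    exact (Metric.measure_ball_pos _ _ (lt_min hδ hr)).ne'
  have h10 : 0 < (2 * (δ / (8 * (r₀ / 2) ^ 2))) ^ m := by positivity
  have := mul_pos h10 h9
  linarith

end Pool.Agent.helper40.SN
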